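import Pool.Agent.H15.DSep2

set_option autoImplicit false

namespace Pool.Agent.Results.MP_339821_gt.FirstCountable

open Pool.Agent.H15.DSep

theorem result : ∃ (X : Type) (_ : TopologicalSpace X), T35Space X ∧ FirstCountableTopology X ∧
    FrechetUrysohnSpace X ∧ IsDSep X ∧ ¬ IsSelDSep X :=
  ⟨PR, inferInstance, inferInstance, inferInstance, inferInstance, pr_dsep, pr_not_dsep⟩

end Pool.Agent.Results.MP_339821_gt.FirstCountable
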