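import Pool.Agent.H15.DSep3

set_option autoImplicit false

namespace Pool.Agent.Results.MP_339821_gt.SigmaCofOmega

open Pool.Agent.H15.DSep Cardinal

universe u

theorem result (ι : Type u) (h : ℵ₀ ≤ #ι) (hcof : (#ι).ord.cof = ℵ₀) :
    IsSelDSep (SigmaCube ι) :=
  sigma_dsep h hcof

end Pool.Agent.Results.MP_339821_gt.SigmaCofOmega
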