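import Pool.Agent.H15.DSep2

set_option autoImplicit false

namespace Pool.Agent.Results.MP_339821_gt.SigmaNot

open Pool.Agent.H15.DSep Cardinal

universe u

theorem result (ι : Type u) (h : ℵ₀ ≤ #ι) (hpow : #ι ^ ℵ₀ = #ι) : ¬ IsSelDSep (SigmaCube ι) :=
  not_dsep_cube h hpow _ ind_mem_sigma

end Pool.Agent.Results.MP_339821_gt.SigmaNot
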